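import Mathlib

open Matrix

namespace Pool.Agent.Results.MP_e1e5e2_ag.EmbeddedPrime

/-- The `d`-th Lovász–Saks–Schrijver ideal of a simple graph `G` over the field `K`. -/
noncomputable def LSS (K : Type*) [Field K] (d : ℕ) {V : Type*} (G : SimpleGraph V) :
    Ideal (MvPolynomial (Fin d × V) K) :=
  Ideal.span {f | ∃ a b : V, G.Adj a b ∧ f = ∑ i : Fin d, MvPolynomial.X (i, a) * MvPolynomial.X (i, b)}

section assoc

/-- An element `r` whose `h`-multiples never enter `I` produces an associated prime of `I` that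
avoids `h` and contains everything that kills `r` up to powers of `h`. -/
theorem exists_assoc {S : Type*} [CommRing S] [IsNoetherianRing S] (I : Ideal S) (h r : S)
    (hr : ∀ N : ℕ, h ^ N * r ∉ I) :
    ∃ P : Ideal S, IsAssociatedPrime P (S ⧸ I) ∧ h ∉ P ∧
      ∀ x, (∃ N : ℕ, h ^ N * (x * r) ∈ I) → x ∈ P := by
  -- the saturation
  let I' : Ideal S :=
    { carrier := {x | ∃ N : ℕ, h ^ N * x ∈ I}
      add_mem' := by
        rintro a b ⟨n, hn⟩ ⟨k, hk⟩
        refine ⟨n + k, ?_⟩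
        have : h ^ (n + k) * (a + b) = h ^ k * (h ^ n * a) + h ^ n * (h ^ k * b) := by ring
        rw [this]
        exact I.add_mem (I.mul_mem_left _ hn) (I.mul_mem_left _ hk)
      zero_mem' := ⟨0, by simp⟩
      smul_mem' := by
        rintro c x ⟨n, hn⟩
        refine ⟨n, ?_⟩
        have : h ^ n * (c • x) = c * (h ^ n * x) := by simp only [smul_eq_mul]; ring
        rw [this]
        exact I.mul_mem_left _ hn }
  have memI' : ∀ x, x ∈ I' ↔ ∃ N : ℕ, h ^ N * x ∈ I := fun x => Iff.rfl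
  -- uniform exponent
  obtain ⟨T, hT⟩ : I'.FG := (isNoetherianRing_iff_ideal_fg S).mp inferInstance I'
  have huni : ∃ N : ℕ, ∀ x ∈ I', h ^ N * x ∈ I := by
    have h1 : ∀ t : T, ∃ N : ℕ, h ^ N * (t : S) ∈ I := fun t =>
      (memI' _).1 (hT ▸ Ideal.subset_span t.2)
    choose n hn using h1
    refine ⟨∑ t : T, n t, fun x hx => ?_⟩
    rw [← hT] at hx
    refine Submodule.span_induction (p := fun x _ => h ^ (∑ t : T, n t) * x ∈ I) ?_ ?_ ?_ ?_ hx
    · intro t ht
      have hle : n ⟨t, ht⟩ ≤ ∑ t : T, n t :=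
        Finset.single_le_sum (f := n) (fun _ _ => Nat.zero_le _) (Finset.mem_univ _)
      obtain ⟨k, hk⟩ := Nat.exists_eq_add_of_le hle
      rw [hk, pow_add]
      have : h ^ n ⟨t, ht⟩ * h ^ k * t = h ^ k * (h ^ n ⟨t, ht⟩ * t) := by ring
      rw [this]
      exact I.mul_mem_left _ (hn ⟨t, ht⟩)
    · simp
    · intro a b _ _ ha hb
      rw [mul_add]
      exact I.add_mem ha hb
    · intro c a _ ha
      have : h ^ (∑ t : T, n t) * (c • a) = c * (h ^ (∑ t : T, n t) * a) := by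
        simp only [smul_eq_mul]; ring
      rw [this]
      exact I.mul_mem_left _ ha
  obtain ⟨N, hN⟩ := huni
  have hr' : (Ideal.Quotient.mk I' r) ≠ 0 := by
    intro h0
    rw [Ideal.Quotient.eq_zero_iff_mem] at h0
    obtain ⟨n, hn⟩ := (memI' _).1 h0
    exact hr n hn
  obtain ⟨P, hP, hle⟩ := exists_le_isAssociatedPrime_of_isNoetherianRing S
    (Ideal.Quotient.mk I' r) hr'
  rw [isAssociatedPrime_iff] at hP
  obtain ⟨hPp, y, hy⟩ := hP
  obtain ⟨y0, rfl⟩ := Ideal.Quotient.mk_surjective y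
  have memP : ∀ x, x ∈ P ↔ x * y0 ∈ I' := by
    intro x
    rw [hy, Submodule.mem_colon_singleton, Submodule.mem_bot, Algebra.smul_def,
      Ideal.Quotient.algebraMap_eq, ← map_mul, Ideal.Quotient.eq_zero_iff_mem]
  refine ⟨P, ?_, ?_, ?_⟩
  · rw [isAssociatedPrime_iff]
    refine ⟨hPp, Ideal.Quotient.mk I (h ^ N * y0), ?_⟩
    ext x
    rw [memP, Submodule.mem_colon_singleton, Submodule.mem_bot, Algebra.smul_def,
      Ideal.Quotient.algebraMap_eq, ← map_mul, Ideal.Quotient.eq_zero_iff_mem]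
    constructor
    · intro hx
      have := hN _ hx
      convert this using 1
      ring
    · intro hx
      refine (memI' _).2 ⟨N, ?_⟩
      convert hx using 1
      ring
  · intro hh
    rw [memP] at hh
    obtain ⟨n, hn⟩ := (memI' _).1 hh
    have : (1 : S) ∈ P := by
      rw [memP, one_mul]
      refine (memI' _).2 ⟨n + 1, ?_⟩
      convert hn using 1
      ring
    exact hPp.ne_top ((Ideal.eq_top_iff_one _).2 this)
  · rintro x ⟨n, hn⟩
    apply hle
    rw [Submodule.mem_colon_singleton, Submodule.mem_bot, Algebra.smul_def,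
      Ideal.Quotient.algebraMap_eq, ← map_mul, Ideal.Quotient.eq_zero_iff_mem]
    exact (memI' _).2 ⟨n, hn⟩

/-- An associated prime that strictly contains some prime above `I` strictly contains an
associated prime of `I`. -/
theorem exists_assoc_lt {S : Type*} [CommRing S] [IsNoetherianRing S] (I P Q0 : Ideal S)
    (hQ : Q0.IsPrime) (hI : I ≤ Q0) (hlt : Q0 < P) :
    ∃ Q : Ideal S, IsAssociatedPrime Q (S ⧸ I) ∧ Q < P := by
  obtain ⟨Q, hQm, hQle⟩ := Ideal.exists_minimalPrimes_le hI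
  refine ⟨Q, ?_, lt_of_le_of_lt hQle hlt⟩
  have h1 := Module.associatedPrimes.minimalPrimes_annihilator_subset_associatedPrimes S (S ⧸ I)
  rw [Ideal.annihilator_quotient] at h1
  exact h1 hQm

end assoc

/-- Vertices of the graph: four `points` `p i`, four `lines` `l i`, and `m + 1` `hubs` `w j`. -/
abbrev Vtx (m : ℕ) : Type := Fin 4 ⊕ Fin 4 ⊕ Fin (m + 1)

/-- `p i` is joined to `l i`, to `l (i + 1)` (indices mod 4) and to every hub. -/
def rel (m : ℕ) : Vtx m → Vtx m → Prop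
  | .inl i, .inr (.inl j) => j = i ∨ j = i + 1
  | .inl _, .inr (.inr _) => True
  | _, _ => False

/-- The 8-cycle `p 0, l 1, p 1, l 2, p 2, l 3, p 3, l 0` together with `m + 1` hubs, each joined to
all four `p i`. For `m = 0` this is the gear graph with four teeth. -/
def gear (m : ℕ) : SimpleGraph (Vtx m) := SimpleGraph.fromRel (rel m)

section config

variable {R : Type*} [CommRing R] {m : ℕ}

/-- A family of vectors satisfying all the orthogonality relations of the graph. -/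
def Good (c : Vtx m → Fin (m + 3) → R) : Prop :=
  ∀ i : Fin 4, c (.inl i) ⬝ᵥ c (.inr (.inl i)) = 0 ∧ c (.inl i) ⬝ᵥ c (.inr (.inl (i + 1))) = 0 ∧
    ∀ j, c (.inl i) ⬝ᵥ c (.inr (.inr j)) = 0

theorem le_ker {K : Type*} [Field K] {V : Type*} (e : V ≃ Vtx m)
    (φ : MvPolynomial (Fin (m + 3) × V) K →+* R) (c : Vtx m → Fin (m + 3) → R)
    (hc : ∀ i a, φ (MvPolynomial.X (i, e.symm a)) = c a i) (good : Good c) :
    LSS K (m + 3) ((gear m).comap e) ≤ RingHom.ker φ := by
  rw [LSS, Ideal.span_le]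
  rintro f ⟨a, b, hab, rfl⟩
  have hc' : ∀ i a, φ (MvPolynomial.X (i, a)) = c (e a) i := by
    intro i a
    rw [← hc, e.symm_apply_apply]
  have key : ∀ x y, rel m x y → ∑ i, c x i * c y i = 0 := by
    rintro (i | i | i) (j | j | j) h <;> simp only [rel] at h
    · rcases h with rfl | rfl
      · exact (good _).1
      · exact (good _).2.1
    · exact (good _).2.2 j
  simp only [SetLike.mem_coe, RingHom.mem_ker, map_sum, map_mul, hc']
  rw [SimpleGraph.comap_adj, gear, SimpleGraph.fromRel_adj] at hab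
  rcases hab.2 with h | h
  · exact key _ _ h
  · rw [← key _ _ h]
    exact Finset.sum_congr rfl fun i _ => mul_comm _ _

theorem good_of_le {K : Type*} [Field K] {V : Type*} (e : V ≃ Vtx m)
    (φ : MvPolynomial (Fin (m + 3) × V) K →+* R) (c : Vtx m → Fin (m + 3) → R)
    (hc : ∀ i a, φ (MvPolynomial.X (i, e.symm a)) = c a i)
    (hle : LSS K (m + 3) ((gear m).comap e) ≤ RingHom.ker φ) : Good c := by
  have key : ∀ x y, rel m x y → ∑ i, c x i * c y i = 0 := by
    intro x y hxy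
    have hne : x ≠ y := by
      rintro rfl
      rcases x with i | i | i <;> simp [rel] at hxy
    have hmem : (∑ i : Fin (m + 3), MvPolynomial.X (i, e.symm x) * MvPolynomial.X (i, e.symm y) :
        MvPolynomial (Fin (m + 3) × V) K) ∈ LSS K (m + 3) ((gear m).comap e) := by
      refine Ideal.subset_span ⟨_, _, ?_, rfl⟩
      rw [SimpleGraph.comap_adj, gear, SimpleGraph.fromRel_adj]
      simp only [Equiv.apply_symm_apply]
      exact ⟨hne, Or.inl hxy⟩
    have := hle hmem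
    simpa only [RingHom.mem_ker, map_sum, map_mul, hc] using this
  intro i
  exact ⟨key _ _ (Or.inl rfl), key _ _ (Or.inr rfl), fun j => key _ _ trivial⟩

/-- The matrix with rows `l 0`, `l 1`, the third unit vector, and the hubs `w 1, …, w m`. -/
def Bm (c : Vtx m → Fin (m + 3) → R) : Matrix (Fin (m + 3)) (Fin (m + 3)) R :=
  Matrix.of (vecCons (c (.inr (.inl 0))) (vecCons (c (.inr (.inl 1))) (vecCons (Pi.single 2 1)
    (fun j : Fin m => c (.inr (.inr j.succ))))))

/-- Numerators of the coordinates of `u` in the basis given by the rows of `Bm c`. -/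
def num (c : Vtx m → Fin (m + 3) → R) (u : Fin (m + 3) → R) : Fin (m + 3) → R :=
  u ᵥ* (Bm c).adjugate

theorem key (c : Vtx m → Fin (m + 3) → R) (u p : Fin (m + 3) → R)
    (hw : ∀ j : Fin m, c (.inr (.inr j.succ)) ⬝ᵥ p = 0) :
    (Bm c).det * (u ⬝ᵥ p) = num c u 0 * (c (.inr (.inl 0)) ⬝ᵥ p) +
      num c u 1 * (c (.inr (.inl 1)) ⬝ᵥ p) + num c u 2 * p 2 := by
  have h1 : num c u ⬝ᵥ (Bm c *ᵥ p) = (Bm c).det * (u ⬝ᵥ p) := by
    rw [num, dotProduct_mulVec, vecMul_vecMul, adjugate_mul, vecMul_smul, vecMul_one,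
      smul_dotProduct, smul_eq_mul]
  rw [← h1, dotProduct, Fin.sum_univ_succ, Fin.sum_univ_succ, Fin.sum_univ_succ]
  have e0 : (Bm c *ᵥ p) 0 = c (.inr (.inl 0)) ⬝ᵥ p := rfl
  have e1 : (Bm c *ᵥ p) (Fin.succ 0) = c (.inr (.inl 1)) ⬝ᵥ p := rfl
  have e2 : (Bm c *ᵥ p) (Fin.succ (Fin.succ 0)) = p 2 := by
    have : (Bm c *ᵥ p) (Fin.succ (Fin.succ 0)) = (Pi.single 2 1 : Fin (m + 3) → R) ⬝ᵥ p := rfl
    rw [this, single_dotProduct, one_mul]
  have e3 : ∀ j : Fin m, (Bm c *ᵥ p) j.succ.succ.succ = c (.inr (.inr j.succ)) ⬝ᵥ p :=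
    fun j => rfl
  rw [e0, e1, e2]
  simp only [e3, hw, mul_zero, Finset.sum_const_zero, add_zero]
  have f1 : (Fin.succ 0 : Fin (m + 3)) = 1 := rfl
  have f2 : (Fin.succ (Fin.succ 0) : Fin (m + 3)) = 2 := rfl
  rw [f1, f2]
  ring

/-- The polynomial we localise at. -/
def hh (c : Vtx m → Fin (m + 3) → R) : R :=
  (Bm c).det * (c (.inl 0) 2 * c (.inl 1) 2 * c (.inl 2) 2 * c (.inl 3) 2) *
    (num c (c (.inr (.inl 2))) 0 *
      (num c (c (.inr (.inl 2))) 0 * num c (c (.inr (.inl 3))) 1 -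
        num c (c (.inr (.inl 3))) 0 * num c (c (.inr (.inl 2))) 1))

/-- The element with embedded annihilator. -/
def rr (c : Vtx m → Fin (m + 3) → R) : R :=
  num c (c (.inr (.inl 2))) 1 * num c (c (.inr (.inr 0))) 0 * num c (c (.inr (.inl 3))) 2

theorem annih (c : Vtx m → Fin (m + 3) → R) (good : Good c) :
    hh c * (num c (c (.inr (.inl 2))) 2 * rr c) = 0 ∧
    hh c * (num c (c (.inr (.inl 3))) 2 * rr c) = 0 ∧
    hh c * (num c (c (.inr (.inr 0))) 0 * rr c) = 0 ∧
    hh c * (num c (c (.inr (.inr 0))) 1 * rr c) = 0 ∧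
    hh c * (num c (c (.inr (.inr 0))) 2 * rr c) = 0 := by
  obtain ⟨a0, b0, w0⟩ := good 0
  obtain ⟨a1, b1, w1⟩ := good 1
  obtain ⟨a2, b2, w2⟩ := good 2
  obtain ⟨a3, b3, w3⟩ := good 3
  have i1 : (0 + 1 : Fin 4) = 1 := rfl
  have i2 : (1 + 1 : Fin 4) = 2 := rfl
  have i3 : (2 + 1 : Fin 4) = 3 := rfl
  have i4 : (3 + 1 : Fin 4) = 0 := rfl
  rw [i1] at b0
  rw [i2] at b1
  rw [i3] at b2
  rw [i4] at b3
  rw [dotProduct_comm] at a0 b0 a1 b1 a2 b2 a3 b3
  have v0 := dotProduct_comm (c (.inl 0)) (c (.inr (.inr 0))) ▸ w0 0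
  have v1 := dotProduct_comm (c (.inl 1)) (c (.inr (.inr 0))) ▸ w1 0
  have v2 := dotProduct_comm (c (.inl 2)) (c (.inr (.inr 0))) ▸ w2 0
  have v3 := dotProduct_comm (c (.inl 3)) (c (.inr (.inr 0))) ▸ w3 0
  have k0 := fun u => key c u (c (.inl 0)) fun j => dotProduct_comm (c (.inl 0)) _ ▸ w0 j.succ
  have k1 := fun u => key c u (c (.inl 1)) fun j => dotProduct_comm (c (.inl 1)) _ ▸ w1 j.succ
  have k2 := fun u => key c u (c (.inl 2)) fun j => dotProduct_comm (c (.inl 2)) _ ▸ w2 j.succ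
  have k3 := fun u => key c u (c (.inl 3)) fun j => dotProduct_comm (c (.inl 3)) _ ▸ w3 j.succ
  have r0 := k0 (c (.inr (.inr 0)))
  have r1v := k1 (c (.inr (.inr 0)))
  have r1l := k1 (c (.inr (.inl 2)))
  have r2v := k2 (c (.inr (.inr 0)))
  have r2l := k2 (c (.inr (.inl 2)))
  have r2k := k2 (c (.inr (.inl 3)))
  have r3v := k3 (c (.inr (.inr 0)))
  have r3l := k3 (c (.inr (.inl 3)))
  rw [v0, a0, b0] at r0
  rw [v1, a1] at r1v
  rw [b1, a1] at r1l
  rw [v2] at r2v
  rw [a2] at r2l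
  rw [b2] at r2k
  rw [v3, b3] at r3v
  rw [a3, b3] at r3l
  simp only [hh, rr]
  generalize (Bm c).det = D at *
  generalize num c (c (.inr (.inr 0))) 0 = N0 at *
  generalize num c (c (.inr (.inr 0))) 1 = N1 at *
  generalize num c (c (.inr (.inr 0))) 2 = N2 at *
  generalize num c (c (.inr (.inl 2))) 0 = A2 at *
  generalize num c (c (.inr (.inl 2))) 1 = B2 at *
  generalize num c (c (.inr (.inl 2))) 2 = s at *
  generalize num c (c (.inr (.inl 3))) 0 = A3 at *
  generalize num c (c (.inr (.inl 3))) 1 = B3 at *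
  generalize num c (c (.inr (.inl 3))) 2 = t at *
  generalize c (.inl 0) 2 = c0 at *
  generalize c (.inl 1) 2 = c1 at *
  generalize c (.inl 2) 2 = c2 at *
  generalize c (.inl 3) 2 = c3 at *
  generalize (c (.inr (.inl 0)) ⬝ᵥ c (.inl 1)) = x1 at *
  generalize (c (.inr (.inl 0)) ⬝ᵥ c (.inl 2)) = x2 at *
  generalize (c (.inr (.inl 1)) ⬝ᵥ c (.inl 2)) = y2 at *
  generalize (c (.inr (.inl 1)) ⬝ᵥ c (.inl 3)) = y3 at *
  clear k0 k1 k2 k3 a0 b0 a1 b1 a2 b2 a3 b3 w0 w1 w2 w3 v0 v1 v2 v3 i1 i2 i3 i4 good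
  simp only [mul_zero, zero_add, add_zero] at r0 r1v r1l r2v r2l r2k r3v r3l
  have s0 : c0 * N2 = 0 := by linear_combination -r0
  have s1 : c0 * c1 * (N0 * s) = 0 := by
    linear_combination (-c0 * N0) * r1l + c0 * A2 * r1v + A2 * c1 * s0
  have s3 : c0 * c3 * (N1 * t) = 0 := by
    linear_combination (-c0 * N1) * r3l + c0 * B3 * r3v + B3 * c3 * s0
  have s2 : c0 * (N0 * x2 + N1 * y2) = 0 := by
    linear_combination (-c0) * r2v - c2 * s0
  have s4 : c0 * c1 * c2 * c3 * (B2 * N0 * t + A3 * N1 * s) = 0 := by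
    linear_combination (-c0 * c1 * c3 * B2 * N0 + A2 * c0 * c1 * c3 * N1) * r2k +
      (-c0 * c1 * c3 * A3 * N1 + B3 * c0 * c1 * c3 * N0) * r2l +
      (A2 * B3 * c1 * c3 - c1 * c3 * A3 * B2) * s2 + B3 * c2 * c3 * s1 + A2 * c1 * c2 * s3
  refine ⟨?_, ?_, ?_, ?_, ?_⟩
  · linear_combination (D * c2 * c3 * (A2 * (A2 * B3 - A3 * B2)) * B2 * t) * s1
  · linear_combination (D * (A2 * (A2 * B3 - A3 * B2)) * t) * s4 -
      (D * c1 * c2 * (A2 * (A2 * B3 - A3 * B2)) * A3 * s) * s3
  · linear_combination (D * (A2 * (A2 * B3 - A3 * B2)) * N0) * s4 -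
      (D * c2 * c3 * (A2 * (A2 * B3 - A3 * B2)) * A3 * N1) * s1
  · linear_combination (D * c1 * c2 * (A2 * (A2 * B3 - A3 * B2)) * B2 * N0) * s3
  · linear_combination (D * c1 * c2 * c3 * (A2 * (A2 * B3 - A3 * B2)) * (B2 * N0 * t)) * s0

theorem Bm_map {R' : Type*} [CommRing R'] (φ : R →+* R') (c : Vtx m → Fin (m + 3) → R) :
    Bm (fun a i => φ (c a i)) = (Bm c).map φ := by
  ext i j
  refine Fin.cases ?_ (fun i => ?_) i
  · rfl
  refine Fin.cases ?_ (fun i => ?_) i
  · rfl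
  refine Fin.cases ?_ (fun i => ?_) i
  · change (Pi.single 2 1 : Fin (m + 3) → R') j = φ ((Pi.single 2 1 : Fin (m + 3) → R) j)
    rw [Pi.single_apply, Pi.single_apply]
    split_ifs <;> simp
  · rfl

theorem num_map {R' : Type*} [CommRing R'] (φ : R →+* R') (c : Vtx m → Fin (m + 3) → R)
    (u : Fin (m + 3) → R) (j : Fin (m + 3)) :
    num (fun a i => φ (c a i)) (fun i => φ (u i)) j = φ (num c u j) := by
  rw [num, num, Bm_map, ← RingHom.mapMatrix_apply, ← RingHom.map_adjugate,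
    RingHom.mapMatrix_apply, RingHom.map_vecMul]
  rfl

theorem num_single (c : Vtx m → Fin (m + 3) → R) : num c (Pi.single 2 1) 2 = (Bm c).det := by
  have h : (Bm c * (Bm c).adjugate) (Fin.succ (Fin.succ 0)) (Fin.succ (Fin.succ 0)) =
      (Bm c).det := by
    rw [mul_adjugate, Matrix.smul_apply, one_apply_eq, smul_eq_mul, mul_one]
  rw [← h, num]
  rfl

theorem hh_map {R' : Type*} [CommRing R'] (φ : R →+* R') (c : Vtx m → Fin (m + 3) → R) :
    hh (fun a i => φ (c a i)) = φ (hh c) := by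
  simp only [hh, num_map, map_mul, map_sub]
  rw [Bm_map, ← RingHom.mapMatrix_apply, ← RingHom.map_det]

theorem rr_map {R' : Type*} [CommRing R'] (φ : R →+* R') (c : Vtx m → Fin (m + 3) → R) :
    rr (fun a i => φ (c a i)) = φ (rr c) := by
  simp only [rr, num_map, map_mul]

end config

section deform

open Polynomial

variable {F : Type*} [Field F] {m : ℕ}

theorem dot_expand {n : ℕ} (a b a' b' : Fin n → F) :
    (fun i => C (a i) + X * C (b i) : Fin n → F[X]) ⬝ᵥ (fun i => C (a' i) + X * C (b' i)) =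
      C (a ⬝ᵥ a') + X * C (a ⬝ᵥ b' + b ⬝ᵥ a') + X ^ 2 * C (b ⬝ᵥ b') := by
  simp only [dotProduct, map_sum, map_add, map_mul, Finset.mul_sum, ← Finset.sum_add_distrib]
  apply Finset.sum_congr rfl
  intros
  ring

/-- First order changes of the vectors. -/
def dd (q1 q2 : Fin (m + 3) → F) : Vtx m → Fin (m + 3) → F
  | .inl i => if i = 1 then q1 else if i = 2 then q2 else 0
  | .inr (.inl i) => if i = 2 then Pi.single 2 1 else 0
  | .inr (.inr _) => 0

theorem exists_q (c : Vtx m → Fin (m + 3) → F) (hD : (Bm c).det ≠ 0)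
    (v0 : num c (c (.inr (.inr 0))) 0 = 0) (v1 : num c (c (.inr (.inr 0))) 1 = 0) (x y : F) :
    ∃ q : Fin (m + 3) → F, c (.inr (.inl 0)) ⬝ᵥ q = x ∧ c (.inr (.inl 1)) ⬝ᵥ q = y ∧ q 2 = 0 ∧
      (∀ j : Fin (m + 1), c (.inr (.inr j)) ⬝ᵥ q = 0) ∧
      (∀ u, (Bm c).det * (u ⬝ᵥ q) = num c u 0 * x + num c u 1 * y) := by
  let t : Fin (m + 3) → F := vecCons x (vecCons y (fun _ => 0))
  have hB : IsUnit (Bm c).det := isUnit_iff_ne_zero.2 hD
  have hq : Bm c *ᵥ ((Bm c)⁻¹ *ᵥ t) = t := by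
    rw [mulVec_mulVec, mul_nonsing_inv _ hB, one_mulVec]
  have e0 : c (.inr (.inl 0)) ⬝ᵥ ((Bm c)⁻¹ *ᵥ t) = x := congrFun hq 0
  have e1 : c (.inr (.inl 1)) ⬝ᵥ ((Bm c)⁻¹ *ᵥ t) = y := congrFun hq 1
  have e2 : ((Bm c)⁻¹ *ᵥ t) 2 = 0 := by
    have : (Pi.single 2 1 : Fin (m + 3) → F) ⬝ᵥ ((Bm c)⁻¹ *ᵥ t) = 0 :=
      congrFun hq (Fin.succ (Fin.succ 0))
    rwa [single_dotProduct, one_mul] at this
  have e3 : ∀ j : Fin m, c (.inr (.inr j.succ)) ⬝ᵥ ((Bm c)⁻¹ *ᵥ t) = 0 :=
    fun j => congrFun hq j.succ.succ.succ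
  have e4 : ∀ u, (Bm c).det * (u ⬝ᵥ ((Bm c)⁻¹ *ᵥ t)) = num c u 0 * x + num c u 1 * y := by
    intro u
    rw [key c u _ e3, e0, e1, e2, mul_zero, add_zero]
  refine ⟨_, e0, e1, e2, ?_, e4⟩
  intro j
  refine Fin.cases ?_ e3 j
  have := e4 (c (.inr (.inr 0)))
  rw [v0, v1, zero_mul, zero_mul, add_zero] at this
  exact (mul_eq_zero.1 this).resolve_left hD

/-- A configuration over a field at which the special element vanishes can be deformed. -/
theorem exists_deform (c : Vtx m → Fin (m + 3) → F) (good : Good c) (hne : hh c ≠ 0)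
    (h2 : num c (c (.inr (.inl 2))) 2 = 0)
    (v0 : num c (c (.inr (.inr 0))) 0 = 0) (v1 : num c (c (.inr (.inr 0))) 1 = 0) :
    ∃ c' : Vtx m → Fin (m + 3) → F[X], Good c' ∧ (∀ a i, (c' a i).eval 0 = c a i) ∧
      num c' (c' (.inr (.inl 2))) 2 ≠ 0 := by
  have hD : (Bm c).det ≠ 0 := by
    intro h
    simp [hh, h] at hne
  have hA : num c (c (.inr (.inl 2))) 0 ≠ 0 := by
    intro h
    simp [hh, h] at hne
  have hΔ : num c (c (.inr (.inl 2))) 0 * num c (c (.inr (.inl 3))) 1 -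
        num c (c (.inr (.inl 3))) 0 * num c (c (.inr (.inl 2))) 1 ≠ 0 := by
    intro h
    simp [hh, h] at hne
  obtain ⟨q1, q1a, q1b, q1c, q1w, q1u⟩ := exists_q c hD v0 v1
    (-((Bm c).det * c (.inl 1) 2) / num c (c (.inr (.inl 2))) 0) 0
  obtain ⟨q2, q2a, q2b, q2c, q2w, q2u⟩ := exists_q c hD v0 v1
    (-((Bm c).det * c (.inl 2) 2 * num c (c (.inr (.inl 3))) 1) /
      (num c (c (.inr (.inl 2))) 0 * num c (c (.inr (.inl 3))) 1 -
        num c (c (.inr (.inl 3))) 0 * num c (c (.inr (.inl 2))) 1))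
    ((Bm c).det * c (.inl 2) 2 * num c (c (.inr (.inl 3))) 0 /
      (num c (c (.inr (.inl 2))) 0 * num c (c (.inr (.inl 3))) 1 -
        num c (c (.inr (.inl 3))) 0 * num c (c (.inr (.inl 2))) 1))
  have l1 : c (.inr (.inl 2)) ⬝ᵥ q1 = - c (.inl 1) 2 := by
    apply mul_left_cancel₀ hD
    rw [q1u]
    field_simp
    ring
  have l2 : c (.inr (.inl 2)) ⬝ᵥ q2 = - c (.inl 2) 2 := by
    apply mul_left_cancel₀ hD
    rw [q2u]
    field_simp
    ring
  have l3 : c (.inr (.inl 3)) ⬝ᵥ q2 = 0 := by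
    apply mul_left_cancel₀ hD
    rw [q2u]
    field_simp
    ring
  obtain ⟨a0, b0, w0⟩ := good 0
  obtain ⟨a1, b1, w1⟩ := good 1
  obtain ⟨a2, b2, w2⟩ := good 2
  obtain ⟨a3, b3, w3⟩ := good 3
  have i1 : (0 + 1 : Fin 4) = 1 := rfl
  have i2 : (1 + 1 : Fin 4) = 2 := rfl
  have i3 : (2 + 1 : Fin 4) = 3 := rfl
  have i4 : (3 + 1 : Fin 4) = 0 := rfl
  refine ⟨fun a i => C (c a i) + X * C (dd q1 q2 a i), ?_, ?_, ?_⟩
  · intro i
    rw [dot_expand, dot_expand]
    simp only [dot_expand]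
    have n01 : (0 : Fin 4) ≠ 1 := by decide
    have n02 : (0 : Fin 4) ≠ 2 := by decide
    have n12 : (1 : Fin 4) ≠ 2 := by decide
    have n21 : (2 : Fin 4) ≠ 1 := by decide
    have n32 : (3 : Fin 4) ≠ 2 := by decide
    fin_cases i
    · simp [dd, a0, w0, i1 ▸ b0]
    · simp only [Fin.mk_one, Fin.isValue]
      rw [i2] at b1 ⊢
      simp only [dd, if_true, n12, if_false, a1, b1, w1, dotProduct_zero, dotProduct_comm q1,
        q1b, q1w, l1, dotProduct_single, q1c, single_dotProduct]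
      simp
    · simp only [Fin.reduceFinMk, Fin.isValue]
      rw [i3] at b2 ⊢
      simp only [dd, if_true, n21, n32, if_false, a2, b2, w2, dotProduct_zero,
        dotProduct_comm q2, q2w, l2, l3, dotProduct_single, q2c, single_dotProduct]
      simp
    · simp [dd, a3, w3, i4 ▸ b3]
  · intro a i
    simp
  · have hB : Bm (fun a i => C (c a i) + X * C (dd q1 q2 a i)) = Bm (fun a i => C (c a i)) := by
      ext1 i j
      refine Fin.cases ?_ (fun i => ?_) i
      · simp [Bm, dd]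
      refine Fin.cases ?_ (fun i => ?_) i
      · simp [Bm, dd]
      refine Fin.cases ?_ (fun i => ?_) i
      · simp [Bm]
      · simp [Bm, dd]
    have hu : (fun i => C (c (.inr (.inl 2)) i) + X * C (dd q1 q2 (.inr (.inl 2)) i)) =
        (fun i => C (c (.inr (.inl 2)) i)) +
          (X : F[X]) • (fun i => C ((Pi.single 2 1 : Fin (m + 3) → F) i)) := by
      ext1 i
      simp [dd]
    rw [num, hB]
    change ((fun i => C (c (.inr (.inl 2)) i) + X * C (dd q1 q2 (.inr (.inl 2)) i)) ᵥ*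
      (Bm fun a i => C (c a i)).adjugate) 2 ≠ 0
    rw [hu, add_vecMul, smul_vecMul]
    have e1 := num_map (C : F →+* F[X]) c (c (.inr (.inl 2))) 2
    have e2 := num_map (C : F →+* F[X]) c (Pi.single 2 1) 2
    rw [num] at e1 e2
    rw [Pi.add_apply, Pi.smul_apply, e1, e2, h2, num_single, map_zero, zero_add, smul_eq_mul]
    exact mul_ne_zero X_ne_zero (C_ne_zero.2 hD)

end deform

section test

variable {R : Type*} [CommRing R] {m : ℕ}

/-- The vector with first three coordinates `a, b, d` and all others zero. -/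
def vec3 (a b d : R) : Fin (m + 3) → R := vecCons a (vecCons b (vecCons d 0))

theorem vec3_dot (a b d : R) (u : Fin (m + 3) → R) :
    vec3 a b d ⬝ᵥ u = a * u 0 + b * u 1 + d * u 2 := by
  rw [dotProduct, Fin.sum_univ_succ, Fin.sum_univ_succ, Fin.sum_univ_succ]
  have : ∀ i : Fin m, vec3 a b d i.succ.succ.succ = 0 := fun i => rfl
  simp only [this, zero_mul, Finset.sum_const_zero, add_zero]
  have e0 : (vec3 a b d : Fin (m + 3) → R) 0 = a := rfl
  have e1 : (vec3 a b d : Fin (m + 3) → R) (Fin.succ 0) = b := rfl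
  have e2 : (vec3 a b d : Fin (m + 3) → R) (Fin.succ (Fin.succ 0)) = d := rfl
  rw [e0, e1, e2, ← add_assoc]
  rfl

/-- The test configuration, depending on two elements of the ring. -/
def tc (x y : R) : Vtx m → Fin (m + 3) → R
  | .inl i => vec3 (![0, x, x + y, 0] i) (![0, 0, x - y, y] i) (![1, -1, -2, 1] i)
  | .inr (.inl i) => vec3 (![1, 0, 1, 1] i) (![0, 1, 1, -1] i) (![0, 0, x, y] i)
  | .inr (.inr j) => Fin.cases (vec3 x (-y) 0) (fun j : Fin m => Pi.single j.succ.succ.succ 1) j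

theorem Bm_tc (x y : R) : Bm (tc x y : Vtx m → Fin (m + 3) → R) = 1 := by
  ext1 i j
  rw [one_apply]
  refine Fin.cases ?_ (fun i => ?_) i
  · change (vec3 1 0 0 : Fin (m + 3) → R) j = _
    refine Fin.cases ?_ (fun j => Fin.cases ?_ (fun j => Fin.cases ?_ (fun j => ?_) j) j) j
    · rw [if_pos rfl]
      rfl
    all_goals
      rw [if_neg (Fin.succ_ne_zero _).symm]
      rfl
  refine Fin.cases ?_ (fun i => ?_) i
  · change (vec3 0 1 0 : Fin (m + 3) → R) j = _
    refine Fin.cases ?_ (fun j => Fin.cases ?_ (fun j => Fin.cases ?_ (fun j => ?_) j) j) j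
    · rw [if_neg (Fin.succ_ne_zero _)]
      rfl
    · rw [if_pos rfl]
      rfl
    all_goals
      rw [if_neg (fun h => (Fin.succ_ne_zero _).symm (Fin.succ_injective _ h))]
      rfl
  refine Fin.cases ?_ (fun i => ?_) i
  · change (Pi.single 2 1 : Fin (m + 3) → R) j = _
    rw [Pi.single_apply]
    exact if_congr eq_comm rfl rfl
  · change (Pi.single i.succ.succ.succ 1 : Fin (m + 3) → R) j = _
    rw [Pi.single_apply]
    exact if_congr eq_comm rfl rfl

theorem num_tc (x y : R) (u : Fin (m + 3) → R) : num (tc x y) u = u := by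
  rw [num, Bm_tc, adjugate_one, vecMul_one]

theorem good_tc (x y : R) (hx : x * x = 0) (hy : y * y = 0) :
    Good (tc x y : Vtx m → Fin (m + 3) → R) := by
  have hw : ∀ (a b d : R) (j : Fin m),
      (vec3 a b d : Fin (m + 3) → R) ⬝ᵥ (Pi.single j.succ.succ.succ 1) = 0 := by
    intro a b d j
    rw [dotProduct_single]
    change (0 : R) * 1 = 0
    rw [zero_mul]
  have v30 : ∀ a b d : R, (vec3 a b d : Fin (m + 3) → R) 0 = a := fun _ _ _ => rfl
  have v31 : ∀ a b d : R, (vec3 a b d : Fin (m + 3) → R) 1 = b := fun _ _ _ => rfl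
  have v32 : ∀ a b d : R, (vec3 a b d : Fin (m + 3) → R) 2 = d := fun _ _ _ => rfl
  intro i
  refine ⟨?_, ?_, fun j => Fin.cases ?_ (fun j => ?_) j⟩
  · fin_cases i <;> simp [tc, vec3_dot, v30, v31, v32]
    ring
  · fin_cases i <;> simp [tc, vec3_dot, v30, v31, v32]
    ring
  · have hx' : x ^ 2 = 0 := by rw [sq, hx]
    have hy' : y ^ 2 = 0 := by rw [sq, hy]
    fin_cases i
    · simp [tc, vec3_dot, v30, v31, v32]
    · simp [tc, vec3_dot, v30, v31, v32, hx]
    · simp only [tc, vec3_dot]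
      simp only [Fin.reduceFinMk, cons_val, Fin.cases_zero, v30, v31, v32]
      linear_combination hx + hy
    · simp [tc, vec3_dot, v30, v31, v32, hy]
  · exact hw _ _ _ j

theorem hh_tc (x y : R) : hh (tc x y : Vtx m → Fin (m + 3) → R) = -4 := by
  have v30 : ∀ a b d : R, (vec3 a b d : Fin (m + 3) → R) 0 = a := fun _ _ _ => rfl
  have v31 : ∀ a b d : R, (vec3 a b d : Fin (m + 3) → R) 1 = b := fun _ _ _ => rfl
  have v32 : ∀ a b d : R, (vec3 a b d : Fin (m + 3) → R) 2 = d := fun _ _ _ => rfl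
  rw [hh, Bm_tc, num_tc, num_tc, det_one]
  simp only [tc, v30, v31, v32]
  simp only [cons_val]
  ring

theorem rr_tc (x y : R) : rr (tc x y : Vtx m → Fin (m + 3) → R) = x * y := by
  have v30 : ∀ a b d : R, (vec3 a b d : Fin (m + 3) → R) 0 = a := fun _ _ _ => rfl
  have v31 : ∀ a b d : R, (vec3 a b d : Fin (m + 3) → R) 1 = b := fun _ _ _ => rfl
  have v32 : ∀ a b d : R, (vec3 a b d : Fin (m + 3) → R) 2 = d := fun _ _ _ => rfl
  rw [rr, num_tc, num_tc, num_tc]
  simp only [tc, v30, v31, v32, Fin.cases_zero]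
  simp only [cons_val]
  ring

end test

/-- A configuration over a small ring detecting `rr`. -/
theorem exists_test (K : Type*) [Field K] (hK : (2 : K) ≠ 0) (m : ℕ) :
    ∃ c : Vtx m → Fin (m + 3) → DualNumber (DualNumber K),
      Good c ∧ (∀ N : ℕ, hh c ^ N * rr c ≠ 0) := by
  let x : DualNumber (DualNumber K) := TrivSqZeroExt.inl DualNumber.eps
  let y : DualNumber (DualNumber K) := DualNumber.eps
  have hx : x * x = 0 := by
    change TrivSqZeroExt.inl DualNumber.eps * TrivSqZeroExt.inl DualNumber.eps = 0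
    rw [← TrivSqZeroExt.inl_mul, DualNumber.eps_mul_eps, TrivSqZeroExt.inl_zero]
  have hy : y * y = 0 := DualNumber.eps_mul_eps
  have hxy : x * y ≠ 0 := by
    intro h
    have h1 := congrArg (fun z => TrivSqZeroExt.snd (TrivSqZeroExt.snd z)) h
    simp [x, y] at h1
  refine ⟨tc x y, good_tc x y hx hy, fun N hN => hxy ?_⟩
  rw [hh_tc, rr_tc] at hN
  have h4 : IsUnit ((-4 : DualNumber (DualNumber K)) ^ N) := by
    have h5 : (-4 : K) ≠ 0 := by
      have : (-4 : K) = -(2 * 2) := by norm_num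
      rw [this]
      exact neg_ne_zero.2 (mul_ne_zero hK hK)
    have h6 : (-4 : DualNumber (DualNumber K)) = algebraMap K _ (-4) := by
      rw [map_neg, map_ofNat]
    rw [h6]
    exact ((isUnit_iff_ne_zero.2 h5).map (algebraMap K (DualNumber (DualNumber K)))).pow N
  exact (h4.mul_right_eq_zero).1 hN

/-- The polynomial ring in which the ideal lives. -/
abbrev Sr (K : Type*) [Field K] (m : ℕ) (V : Type*) := MvPolynomial (Fin (m + 3) × V) K

/-- The main argument, for an arbitrary labelling `e` of the vertices. -/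
theorem main (K : Type*) [Field K] (hK : (2 : K) ≠ 0) (m : ℕ) {V : Type*} [Finite V]
    (e : V ≃ Vtx m) :
    ∃ P Q : Ideal (MvPolynomial (Fin (m + 3) × V) K),
      IsAssociatedPrime P
        (MvPolynomial (Fin (m + 3) × V) K ⧸ LSS K (m + 3) ((gear m).comap e)) ∧
      IsAssociatedPrime Q
        (MvPolynomial (Fin (m + 3) × V) K ⧸ LSS K (m + 3) ((gear m).comap e)) ∧ Q < P := by
  set I : Ideal (Sr K m V) := LSS K (m + 3) ((gear m).comap e) with hI
  let vec : Vtx m → Fin (m + 3) → Sr K m V := fun a i => MvPolynomial.X (i, e.symm a)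
  -- the test homomorphism shows that `rr` is not killed by powers of `hh`
  have hr : ∀ N : ℕ, hh vec ^ N * rr vec ∉ I := by
    intro N hN
    obtain ⟨c, hc, hne⟩ := exists_test K hK m
    let θ : Sr K m V →+* DualNumber (DualNumber K) :=
      MvPolynomial.eval₂Hom (algebraMap K _) (fun ia => c (e ia.2) ia.1)
    have hθ : ∀ i a, θ (MvPolynomial.X (i, e.symm a)) = c a i := by
      intro i a
      simp [θ]
    have hker := le_ker e θ c hθ hc
    have h0 : θ (hh vec ^ N * rr vec) = 0 := hker hN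
    have hcc : c = fun a i => θ (vec a i) := by
      funext a i
      exact (hθ i a).symm
    rw [map_mul, map_pow] at h0
    apply hne N
    rw [hcc, hh_map, rr_map]
    exact h0
  -- relations in the quotient
  have hgoodI : Good (fun a i => Ideal.Quotient.mk I (vec a i)) :=
    good_of_le e (Ideal.Quotient.mk I) _ (fun i a => rfl) (by rw [Ideal.mk_ker])
  obtain ⟨P, hP, hhP, hann⟩ := exists_assoc I (hh vec) (rr vec) hr
  have hPp : P.IsPrime := hP.1
  have hIP : I ≤ P := by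
    have := hP.annihilator_le
    rwa [Submodule.annihilator_top, Ideal.annihilator_quotient] at this
  have hann' : ∀ x : Sr K m V, hh (fun a i => Ideal.Quotient.mk I (vec a i)) *
      (Ideal.Quotient.mk I x * rr (fun a i => Ideal.Quotient.mk I (vec a i))) = 0 → x ∈ P := by
    intro x hx
    refine hann x ⟨1, ?_⟩
    rw [hh_map, rr_map, ← map_mul, ← map_mul, Ideal.Quotient.eq_zero_iff_mem] at hx
    rwa [pow_one]
  obtain ⟨e1, -, e3, e4, -⟩ := annih _ hgoodI
  have m1 : num vec (vec (.inr (.inl 2))) 2 ∈ P := hann' _ (by rw [← num_map]; exact e1)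
  have m3 : num vec (vec (.inr (.inr 0))) 0 ∈ P := hann' _ (by rw [← num_map]; exact e3)
  have m4 : num vec (vec (.inr (.inr 0))) 1 ∈ P := hann' _ (by rw [← num_map]; exact e4)
  -- the residue field of `P`
  let F := FractionRing (Sr K m V ⧸ P)
  let φ : Sr K m V →+* F := (algebraMap (Sr K m V ⧸ P) F).comp (Ideal.Quotient.mk P)
  have hφ : ∀ x, φ x = 0 ↔ x ∈ P := by
    intro x
    rw [← Ideal.Quotient.eq_zero_iff_mem]
    exact map_eq_zero_iff _ (IsFractionRing.injective (Sr K m V ⧸ P) F)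
  have hgoodF : Good (fun a i => φ (vec a i)) :=
    good_of_le e φ _ (fun i a => rfl) (fun x hx => (hφ x).2 (hIP hx))
  obtain ⟨c', hc', hev, hne⟩ := exists_deform (fun a i => φ (vec a i)) hgoodF
    (by rw [hh_map]; exact fun h => hhP ((hφ _).1 h))
    (by rw [num_map]; exact (hφ _).2 m1) (by rw [num_map]; exact (hφ _).2 m3)
    (by rw [num_map]; exact (hφ _).2 m4)
  let ψ : Sr K m V →+* Polynomial F :=
    MvPolynomial.eval₂Hom (Polynomial.C.comp (φ.comp MvPolynomial.C)) (fun ia => c' (e ia.2) ia.1)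
  have hψ : ∀ i a, ψ (MvPolynomial.X (i, e.symm a)) = c' a i := by
    intro i a
    simp [ψ]
  have hcomp : ∀ x, Polynomial.evalRingHom 0 (ψ x) = φ x := by
    intro x
    have : (Polynomial.evalRingHom 0).comp ψ = φ := by
      refine MvPolynomial.ringHom_ext ?_ ?_
      · intro r
        simp [ψ]
      · rintro ⟨i, a⟩
        have h1 := hev (e a) i
        simp only [vec, e.symm_apply_apply] at h1
        simpa [ψ] using h1
    rw [← this]
    rfl
  have hlt : RingHom.ker ψ < P := by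
    refine lt_of_le_of_ne ?_ ?_
    · intro x hx
      rw [← hφ, ← hcomp, (RingHom.mem_ker).1 hx, map_zero]
    · intro heq
      have h1 : num vec (vec (.inr (.inl 2))) 2 ∈ RingHom.ker ψ := by
        rw [heq]
        exact m1
      rw [RingHom.mem_ker, ← num_map] at h1
      have hcc : c' = fun a i => ψ (vec a i) := by
        funext a i
        exact (hψ i a).symm
      apply hne
      rw [hcc]
      exact h1
  obtain ⟨Q, hQ, hQP⟩ := exists_assoc_lt I P (RingHom.ker ψ) (RingHom.ker_isPrime ψ)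
    (le_ker e ψ c' hψ hc') hlt
  exact ⟨P, Q, hP, hQ, hQP⟩

/-- **Embedded primes of Lovász–Saks–Schrijver ideals.** For every field `K` of characteristic
different from two and every `d ≥ 3` there is a simple graph on `d + 6` vertices whose `d`-th LSS
ideal over `K` has an associated prime properly containing another associated prime. -/
theorem result (K : Type*) [Field K] (hK : (2 : K) ≠ 0) (d : ℕ) (hd : 3 ≤ d) :
    ∃ G : SimpleGraph (Fin (d + 6)), ∃ P Q : Ideal (MvPolynomial (Fin d × Fin (d + 6)) K),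
      IsAssociatedPrime P (MvPolynomial (Fin d × Fin (d + 6)) K ⧸ LSS K d G) ∧
      IsAssociatedPrime Q (MvPolynomial (Fin d × Fin (d + 6)) K ⧸ LSS K d G) ∧ Q < P := by
  obtain ⟨m, rfl⟩ := Nat.exists_eq_add_of_le' hd
  have hcard : Fintype.card (Fin (m + 3 + 6)) = Fintype.card (Vtx m) := by
    simp only [Fintype.card_fin, Fintype.card_sum]
    omega
  exact ⟨_, main K hK m (Fintype.equivOfCardEq hcard)⟩

end Pool.Agent.Results.MP_e1e5e2_ag.EmbeddedPrime
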